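import Mathlib

/-!
# Stable commutator length and mapping class groups of closed surfaces (definitions)

`SG L` is the surface group `⟨a_i, b_i | ∏_{i ∈ L} [a_i, b_i]⟩`; for `L = (0, ..., g-1)` it is the
fundamental group of the closed oriented surface of genus `g`. `Mod L` is the group of outer
automorphisms of `SG L` preserving the intersection form (Dehn-Nielsen-Baer).
-/

set_option autoImplicit false

open scoped ENNReal

namespace Pool.Agent.Lib.MP_6a1159_al

/-- `x` is a product of `k` commutators `y z y⁻¹ z⁻¹`. -/
def IsProdComm {G : Type} [Group G] (k : ℕ) (x : G) : Prop :=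
  ∃ y z : Fin k → G, x = (List.ofFn fun i => y i * z i * (y i)⁻¹ * (z i)⁻¹).prod

/-- The commutator length (`∞` if `x` is not a product of commutators). -/
noncomputable def cl {G : Type} [Group G] (x : G) : ℝ≥0∞ :=
  ⨅ (k : ℕ) (_ : IsProdComm k x), (k : ℝ≥0∞)

/-- The stable commutator length `lim cl (x ^ n) / n = inf cl (x ^ n) / n`. -/
noncomputable def scl {G : Type} [Group G] (x : G) : ℝ≥0∞ :=
  ⨅ n : ℕ, cl (x ^ (n + 1)) / ((n + 1 : ℕ) : ℝ≥0∞)

/-- The free generator `a_i`. -/
def fa {ι : Type} (i : ι) : FreeGroup (ι × Bool) := FreeGroup.of (i, false)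

/-- The free generator `b_i`. -/
def fb {ι : Type} (i : ι) : FreeGroup (ι × Bool) := FreeGroup.of (i, true)

/-- The word `∏_{i ∈ L} [a_i, b_i]`. -/
def relator {ι : Type} (L : List ι) : FreeGroup (ι × Bool) :=
  (L.map fun i => fa i * fb i * (fa i)⁻¹ * (fb i)⁻¹).prod

/-- The group with generators `a_i, b_i` and the relation `∏_{i ∈ L} [a_i, b_i] = 1`. -/
abbrev SG {ι : Type} (L : List ι) : Type :=
  PresentedGroup ({relator L} : Set (FreeGroup (ι × Bool)))

/-- The projection from the free group. -/
abbrev proj {ι : Type} (L : List ι) : FreeGroup (ι × Bool) →* SG L :=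
  PresentedGroup.mk ({relator L} : Set (FreeGroup (ι × Bool)))

/-- The generator `a_i` of the surface group. -/
def ga {ι : Type} (L : List ι) (i : ι) : SG L := proj L (fa i)

/-- The generator `b_i` of the surface group. -/
def gb {ι : Type} (L : List ι) (i : ι) : SG L := proj L (fb i)

/-- The intersection form (cup product) on `H¹(S; ℤ) = Hom(π₁ S, ℤ)`. -/
def inter {ι : Type} (L : List ι) (x y : SG L →* Multiplicative ℤ) : ℤ :=
  (L.map fun i => (x (ga L i)).toAdd * (y (gb L i)).toAdd -
    (x (gb L i)).toAdd * (y (ga L i)).toAdd).sum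

/-- The automorphisms of the surface group which preserve the intersection form (the orientation
preserving ones). -/
def AutPlus {ι : Type} (L : List ι) : Subgroup (MulAut (SG L)) where
  carrier := {f | ∀ x y : SG L →* Multiplicative ℤ,
    inter L (x.comp f.toMonoidHom) (y.comp f.toMonoidHom) = inter L x y}
  mul_mem' {f g} hf hg := fun x y => by
    have h1 := hg (x.comp f.toMonoidHom) (y.comp f.toMonoidHom)
    have h2 := hf x y
    rw [← h2, ← h1]
    rfl
  one_mem' := fun x y => rfl
  inv_mem' {f} hf := fun x y => by
    have h1 := hf (x.comp (f⁻¹ : MulAut (SG L)).toMonoidHom)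
      (y.comp (f⁻¹ : MulAut (SG L)).toMonoidHom)
    rw [← h1]
    have e : ∀ z : SG L →* Multiplicative ℤ,
        (z.comp (f⁻¹ : MulAut (SG L)).toMonoidHom).comp f.toMonoidHom = z := by
      intro z
      ext w
      show (z ((f⁻¹ : MulAut (SG L)) (f _))).toAdd = _
      rw [MulAut.inv_apply_self]
    rw [e, e]

/-- The inner automorphisms, as a subgroup of `AutPlus L`. -/
def Inn {ι : Type} (L : List ι) : Subgroup (AutPlus L) :=
  (MulAut.conj : SG L →* MulAut (SG L)).range.subgroupOf (AutPlus L)

instance {ι : Type} (L : List ι) : (Inn L).Normal where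
  conj_mem := by
    rintro ⟨n, hn⟩ ⟨w, hw⟩ ⟨g, hg⟩
    refine ⟨g w, ?_⟩
    have hw' : MulAut.conj w = n := hw
    show MulAut.conj (g w) = g * n * g⁻¹
    rw [← hw']
    ext z
    simp

/-- The mapping class group: orientation preserving outer automorphisms of the surface group. -/
abbrev Mod {ι : Type} (L : List ι) : Type := AutPlus L ⧸ Inn L

section twist

variable {ι : Type} [DecidableEq ι]

/-- The endomorphism `b_i ↦ b_i a_i ^ k` of the free group (all other generators are fixed). -/
def twFree (i : ι) (k : ℤ) : FreeGroup (ι × Bool) →* FreeGroup (ι × Bool) :=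
  FreeGroup.lift fun x => if x = (i, true) then fb i * fa i ^ k else FreeGroup.of x

theorem twFree_a (i j : ι) (k : ℤ) : twFree i k (fa j) = fa j := by
  simp [twFree, fa]

theorem twFree_b (i : ι) (k : ℤ) : twFree i k (fb i) = fb i * fa i ^ k := by
  simp [twFree, fb]

theorem twFree_b_ne (i j : ι) (k : ℤ) (h : j ≠ i) : twFree i k (fb j) = fb j := by
  simp [twFree, fb, h]

theorem twFree_relator (i : ι) (k : ℤ) (L : List ι) : twFree i k (relator L) = relator L := by
  unfold relator
  rw [map_list_prod, List.map_map]
  congr 1
  apply List.map_congr_left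
  intro j _
  by_cases h : j = i
  · subst h
    simp only [Function.comp_apply, map_mul, map_inv, twFree_a, twFree_b]
    group
  · simp only [Function.comp_apply, map_mul, map_inv, twFree_a, twFree_b_ne i j k h]

/-- The endomorphism `b_i ↦ b_i a_i ^ k` of the surface group. -/
def twHom (L : List ι) (i : ι) (k : ℤ) : SG L →* SG L :=
  PresentedGroup.toGroup (f := fun x => proj L (twFree i k (FreeGroup.of x))) (by
    intro r hr
    rw [Set.mem_singleton_iff] at hr
    have h1 : FreeGroup.lift (fun x => proj L (twFree i k (FreeGroup.of x))) =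
        (proj L).comp (twFree i k) := by
      ext x
      simp
    rw [h1, hr, MonoidHom.comp_apply, twFree_relator]
    exact PresentedGroup.one_of_mem (Set.mem_singleton _))

theorem twHom_proj (L : List ι) (i : ι) (k : ℤ) (w : FreeGroup (ι × Bool)) :
    twHom L i k (proj L w) = proj L (twFree i k w) := by
  have h1 : (twHom L i k).comp (proj L) = (proj L).comp (twFree i k) := by
    refine FreeGroup.ext_hom _ _ fun x => ?_
    show FreeGroup.lift (fun x => proj L (twFree i k (FreeGroup.of x))) (FreeGroup.of x) = _
    rw [FreeGroup.lift_apply_of]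
    rfl
  exact DFunLike.congr_fun h1 w

theorem twHom_comp (L : List ι) (i : ι) (k l : ℤ) (w : SG L) :
    twHom L i k (twHom L i l w) = twHom L i (k + l) w := by
  obtain ⟨w, rfl⟩ := PresentedGroup.mk_surjective _ w
  rw [twHom_proj, twHom_proj, twHom_proj]
  congr 1
  have h1 : (twFree i k).comp (twFree i l) = twFree i (k + l) := by
    ext x
    obtain ⟨j, s⟩ := x
    show twFree i k (twFree i l (FreeGroup.of (j, s))) = twFree i (k + l) (FreeGroup.of (j, s))
    cases s
    · show twFree i k (twFree i l (fa j)) = twFree i (k + l) (fa j)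
      simp only [twFree_a]
    · show twFree i k (twFree i l (fb j)) = twFree i (k + l) (fb j)
      by_cases h : j = i
      · subst h
        simp only [twFree_b, map_mul, map_zpow, twFree_a]
        rw [zpow_add, mul_assoc]
      · simp only [twFree_b_ne i j _ h]
  exact DFunLike.congr_fun h1 w

theorem twHom_zero (L : List ι) (i : ι) (w : SG L) : twHom L i 0 w = w := by
  obtain ⟨w, rfl⟩ := PresentedGroup.mk_surjective _ w
  rw [twHom_proj]
  congr 1
  have h1 : twFree i 0 = MonoidHom.id _ := by
    ext x
    obtain ⟨j, s⟩ := x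
    show twFree i 0 (FreeGroup.of (j, s)) = FreeGroup.of (j, s)
    cases s
    · exact twFree_a i j 0
    · by_cases h : j = i
      · subst h
        have := twFree_b j 0
        simpa [fb] using this
      · exact twFree_b_ne i j 0 h
  rw [h1]; rfl

/-- The automorphism `b_i ↦ b_i a_i` of the surface group. -/
def twAut (L : List ι) (i : ι) : MulAut (SG L) where
  toFun := twHom L i 1
  invFun := twHom L i (-1)
  left_inv w := by rw [twHom_comp]; exact twHom_zero L i w
  right_inv w := by rw [twHom_comp]; exact twHom_zero L i w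
  map_mul' := map_mul _

theorem twAut_a (L : List ι) (i j : ι) : twAut L i (ga L j) = ga L j := by
  show twHom L i 1 (proj L (fa j)) = _
  rw [twHom_proj, twFree_a]
  rfl

theorem twAut_b (L : List ι) (i : ι) : twAut L i (gb L i) = gb L i * ga L i := by
  show twHom L i 1 (proj L (fb i)) = _
  rw [twHom_proj, twFree_b]
  simp [ga, gb]

theorem twAut_b_ne (L : List ι) (i j : ι) (h : j ≠ i) : twAut L i (gb L j) = gb L j := by
  show twHom L i 1 (proj L (fb j)) = _
  rw [twHom_proj, twFree_b_ne i j 1 h]
  rfl

/-- The Dehn twist about the curve `a_i`: the automorphism `b_i ↦ b_i a_i` which fixes all the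
other generators. -/
def twist (L : List ι) (i : ι) : AutPlus L :=
  ⟨twAut L i, by
    intro x y
    unfold inter
    congr 1
    apply List.map_congr_left
    intro j _
    have h1 : (twAut L i).toMonoidHom (ga L j) = ga L j := twAut_a L i j
    rw [MonoidHom.comp_apply, MonoidHom.comp_apply, MonoidHom.comp_apply, MonoidHom.comp_apply, h1]
    by_cases h : j = i
    · subst h
      have h2 : (twAut L j).toMonoidHom (gb L j) = gb L j * ga L j := twAut_b L j
      rw [h2, x.map_mul, y.map_mul, toAdd_mul, toAdd_mul]
      ring
    · have h2 : (twAut L i).toMonoidHom (gb L j) = gb L j := twAut_b_ne L i j h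
      rw [h2]⟩

/-- The class of the Dehn twist about `a_i` in the mapping class group. -/
def tw (L : List ι) (i : ι) : Mod L := QuotientGroup.mk (twist L i)

end twist

/-- `φ(g, 0)`: the stable commutator length of the Dehn twist about the nonseparating curve `a_i`
in the mapping class group of the closed surface of genus `g`. -/
noncomputable def phi0 (g : ℕ) (i : Fin g) : ℝ≥0∞ := scl (tw (List.finRange g) i)

end Pool.Agent.Lib.MP_6a1159_al
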