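import Pool.Agent.Lib.MP_6a1159_al.Main

/-! The final form of the covering inequality. -/

set_option autoImplicit false

open scoped ENNReal
open Filter Topology

namespace Pool.Agent.Lib.MP_6a1159_al

/-- The stable commutator length: the limit of `cl (x ^ n) / n` (written as a lower limit, which
agrees with the limit whenever the limit exists). -/
noncomputable def stableCL {G : Type} [Group G] (x : G) : ℝ≥0∞ :=
  liminf (fun n : ℕ => cl (x ^ n) / (n : ℝ≥0∞)) atTop

theorem ipc_cl_pow {G : Type} [Group G] (x : G) (n : ℕ) : cl (x ^ n) ≤ n * cl x := by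
  by_cases h : cl x = ∞
  · rcases Nat.eq_zero_or_pos n with h0 | h0
    · subst h0
      simp only [pow_zero, Nat.cast_zero, zero_mul, nonpos_iff_eq_zero]
      exact le_antisymm (by simpa using cl_le_of_ipc (ipc_zero (G := G))) bot_le
    · rw [h, ENNReal.mul_top (by exact_mod_cast h0.ne')]
      exact le_top
  · obtain ⟨k, hk, hk'⟩ := exists_ipc_of_cl x h
    rw [hk]
    exact_mod_cast cl_le_of_ipc (ipc_pow hk' n)

theorem stableCL_eq_scl {G : Type} [Group G] (x : G) : stableCL x = scl x := by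
  apply le_antisymm
  · refine le_iInf fun m => ?_
    -- along the multiples of `m + 1`
    refine liminf_le_of_frequently_le' ?_
    rw [frequently_atTop]
    intro a
    refine ⟨(m + 1) * (a + 1), by nlinarith, ?_⟩
    rw [pow_mul]
    calc cl ((x ^ (m + 1)) ^ (a + 1)) / (((m + 1) * (a + 1) : ℕ) : ℝ≥0∞)
        ≤ (((a + 1 : ℕ) : ℝ≥0∞) * cl (x ^ (m + 1))) / (((m + 1) * (a + 1) : ℕ) : ℝ≥0∞) := by
          gcongr
          exact ipc_cl_pow _ _
      _ = cl (x ^ (m + 1)) / ((m + 1 : ℕ) : ℝ≥0∞) := by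
          rw [Nat.cast_mul, mul_comm (((m + 1 : ℕ) : ℝ≥0∞))]
          rw [ENNReal.mul_div_mul_left _ _ (by exact_mod_cast Nat.succ_ne_zero a)
            (ENNReal.natCast_ne_top _)]
  · refine le_liminf_of_le (by isBoundedDefault) ?_
    filter_upwards [eventually_ge_atTop 1] with n hn
    obtain ⟨m, rfl⟩ : ∃ m, n = m + 1 := ⟨n - 1, by omega⟩
    exact iInf_le (fun m : ℕ => cl (x ^ (m + 1)) / ((m + 1 : ℕ) : ℝ≥0∞)) m

/-- `φ(g, 0)`: the stable commutator length of the Dehn twist about the nonseparating curve `a_i`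
in the mapping class group of the closed oriented surface of genus `g`. -/
noncomputable def phi (g : ℕ) (i : Fin g) : ℝ≥0∞ := stableCL (tw (List.finRange g) i)

/-- The factor for a composition of cyclic coverings of prime degrees `p`, starting in genus
`g`. -/
noncomputable def factor : ℕ → List ℕ → ℝ
  | _, [] => 1
  | g, p :: ps => (((p : ℝ) ^ (2 * g) + (p : ℝ) ^ (2 * g - 1) - (p : ℝ) ^ (2 * g - 2) - p) /
      ((p : ℝ) ^ (2 * g) - 1)) * factor (p * (g - 1) + 1) ps

theorem phi_eq (g : ℕ) (i : Fin g) : phi g i = phi0 g i := stableCL_eq_scl _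

theorem phi_index (g g' : ℕ) (h : g = g') (i : Fin g) (j : Fin g') : phi g i = phi g' j := by
  subst h
  obtain ⟨n, rfl⟩ : ∃ n, g = n + 1 := ⟨g - 1, by have := i.2; omega⟩
  rw [phi_eq, phi_eq, phi0_eq (List.finRange n) (List.nodup_finRange n) (by simp) (n + 1)
    (by simp) i, phi0_eq (List.finRange n) (List.nodup_finRange n) (by simp) (n + 1)
    (by simp) j]

theorem one_lt_factor_prime (g : ℕ) (hg : 2 ≤ g) (p : ℕ) (hp : p.Prime) :
    1 < ((p : ℝ) ^ (2 * g) + (p : ℝ) ^ (2 * g - 1) - (p : ℝ) ^ (2 * g - 2) - p) /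
      ((p : ℝ) ^ (2 * g) - 1) := by
  have hp2 : (2 : ℝ) ≤ p := by exact_mod_cast hp.two_le
  have h1 : (1 : ℝ) < (p : ℝ) ^ (2 * g) := one_lt_pow₀ (by linarith) (by omega)
  rw [one_lt_div (by linarith)]
  obtain ⟨n, rfl⟩ : ∃ n, g = n + 2 := ⟨g - 2, by omega⟩
  have e1 : 2 * (n + 2) - 1 = 2 * n + 3 := by omega
  have e2 : 2 * (n + 2) - 2 = 2 * n + 2 := by omega
  rw [e1, e2]
  have h2 : (1 : ℝ) ≤ (p : ℝ) ^ (2 * n + 1) := one_le_pow₀ (by linarith)
  have h3 : (p : ℝ) ^ (2 * n + 3) = (p : ℝ) ^ (2 * n + 1) * p * p := by ring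
  have h4 : (p : ℝ) ^ (2 * n + 2) = (p : ℝ) ^ (2 * n + 1) * p := by ring
  rw [h3, h4]
  nlinarith [mul_le_mul h2 hp2 (by norm_num) (by positivity)]

theorem one_le_factor (ps : List ℕ) (hps : ∀ p ∈ ps, p.Prime) (g : ℕ) (hg : 2 ≤ g) :
    1 ≤ factor g ps := by
  induction ps generalizing g with
  | nil => exact le_rfl
  | cons p ps ih =>
    have hp := hps p (by simp)
    have h1 := one_lt_factor_prime g hg p hp
    have h2 := ih (fun q hq => hps q (by simp [hq])) (p * (g - 1) + 1) (by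
      have := hp.two_le
      have : 1 ≤ g - 1 := by omega
      nlinarith)
    rw [factor]
    nlinarith

theorem one_lt_factor (ps : List ℕ) (hps : ∀ p ∈ ps, p.Prime) (hne : ps ≠ []) (g : ℕ)
    (hg : 2 ≤ g) : 1 < factor g ps := by
  cases ps with
  | nil => exact absurd rfl hne
  | cons p ps =>
    have hp := hps p (by simp)
    have h1 := one_lt_factor_prime g hg p hp
    have h2 := one_le_factor ps (fun q hq => hps q (by simp [hq])) (p * (g - 1) + 1) (by
      have := hp.two_le
      have : 1 ≤ g - 1 := by omega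
      nlinarith)
    rw [factor]
    nlinarith

theorem list_step (ps : List ℕ) (hps : ∀ p ∈ ps, p.Prime) (g : ℕ) (hg : 2 ≤ g) (i : Fin g)
    (j : Fin (ps.prod * (g - 1) + 1)) :
    ENNReal.ofReal (factor g ps) * phi (ps.prod * (g - 1) + 1) j ≤ phi g i := by
  induction ps generalizing g with
  | nil =>
    rw [factor, ENNReal.ofReal_one, one_mul]
    exact (phi_index _ _ (by rw [List.prod_nil]; omega) j i).le
  | cons p ps ih =>
    have hp := hps p (by simp)
    have hg' : 2 ≤ p * (g - 1) + 1 := by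
      have := hp.two_le
      have : 1 ≤ g - 1 := by omega
      nlinarith
    have hprod : (p :: ps).prod * (g - 1) + 1 = ps.prod * (p * (g - 1) + 1 - 1) + 1 := by
      rw [List.prod_cons, Nat.add_sub_cancel]
      ring
    have h1 := one_lt_factor_prime g hg p hp
    have h2 := one_le_factor ps (fun q hq => hps q (by simp [hq])) (p * (g - 1) + 1) hg'
    have i' : Fin (p * (g - 1) + 1) := ⟨0, by omega⟩
    have h3 := ih (fun q hq => hps q (by simp [hq])) (p * (g - 1) + 1) hg' i'
      (Fin.cast hprod j)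
    rw [← phi_index _ _ hprod j (Fin.cast hprod j)] at h3
    have h4 := prime_step g hg p hp i i'
    rw [← phi_eq, ← phi_eq] at h4
    have hp2 : (2 : ℝ) ≤ p := by exact_mod_cast hp.two_le
    have hB : 0 < (p : ℝ) ^ (2 * g) - 1 := by
      have : (1 : ℝ) < (p : ℝ) ^ (2 * g) := one_lt_pow₀ (by linarith) (by omega)
      linarith
    have h5 : ENNReal.ofReal (((p : ℝ) ^ (2 * g) + (p : ℝ) ^ (2 * g - 1) -
        (p : ℝ) ^ (2 * g - 2) - p) / ((p : ℝ) ^ (2 * g) - 1)) * phi (p * (g - 1) + 1) i' ≤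
        phi g i := by
      rw [ENNReal.ofReal_div_of_pos hB, ENNReal.div_eq_inv_mul, mul_assoc]
      rw [ENNReal.inv_mul_le_iff (by simpa using hB) ENNReal.ofReal_ne_top]
      exact h4
    rw [factor, ENNReal.ofReal_mul (by linarith), mul_assoc]
    calc _ ≤ ENNReal.ofReal (((p : ℝ) ^ (2 * g) + (p : ℝ) ^ (2 * g - 1) -
        (p : ℝ) ^ (2 * g - 2) - p) / ((p : ℝ) ^ (2 * g) - 1)) * phi (p * (g - 1) + 1) i' := by
          gcongr
      _ ≤ _ := h5

theorem final (g : ℕ) (hg : 2 ≤ g) (D : ℕ) (hD : 2 ≤ D) :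
    1 < factor g D.primeFactorsList ∧ ∀ (i : Fin g) (j : Fin (D * (g - 1) + 1)),
      ENNReal.ofReal (factor g D.primeFactorsList) * phi (D * (g - 1) + 1) j ≤ phi g i := by
  have hps : ∀ p ∈ D.primeFactorsList, p.Prime := fun p hp => Nat.prime_of_mem_primeFactorsList hp
  refine ⟨one_lt_factor _ hps ?_ g hg, fun i j => ?_⟩
  · intro h
    have h1 := Nat.prod_primeFactorsList (by omega : D ≠ 0)
    rw [h] at h1
    simp at h1
    omega
  · have h1 := Nat.prod_primeFactorsList (by omega : D ≠ 0)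
    have h2 : D * (g - 1) + 1 = D.primeFactorsList.prod * (g - 1) + 1 := by rw [h1]
    have h3 := list_step D.primeFactorsList hps g hg i (Fin.cast h2 j)
    rw [← phi_index _ _ h2 j (Fin.cast h2 j)] at h3
    exact h3

end Pool.Agent.Lib.MP_6a1159_al
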