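import Pool.Agent.Lib.MP_6a1159_al.Mg.G020

/-! The covering inequality. -/

set_option autoImplicit false

open scoped ENNReal
open Filter Topology

namespace Pool.Agent.Lib.MP_6a1159_al

section lift

variable {ι : Type}

/-- Powers of `u * conj γ`. -/
theorem m1_pow (L : List ι) (p : ℕ) (u : MulAut (SG L)) (γ : SG L) (m : ℕ) :
    ∃ δ : SG L, (u * MulAut.conj γ) ^ m = u ^ m * MulAut.conj δ ∧
      ∀ c : SG L →* Multiplicative (ZMod p), (∀ w, c (u w) = c w) → c δ = c γ ^ m := by
  induction m with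
  | zero => exact ⟨1, by simp, fun c _ => by simp⟩
  | succ m ih =>
    obtain ⟨δ, h1, h2⟩ := ih
    refine ⟨u⁻¹ δ * γ, ?_, ?_⟩
    · rw [pow_succ, h1, map_mul, pow_succ]
      have h3 : MulAut.conj (u⁻¹ δ) = u⁻¹ * MulAut.conj δ * u := by
        ext w
        simp [MulAut.conj_apply]
      rw [h3]
      group
    · intro c hc
      have h4 : c (u⁻¹ δ) = c δ := by
        rw [← hc (u⁻¹ δ), MulAut.apply_inv_self]
      rw [map_mul, h4, h2 c hc, pow_succ]

theorem m1_inv_pow (L : List ι) (p : ℕ) (u : MulAut (SG L)) (c : SG L →* Multiplicative (ZMod p))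
    (h : ∀ w, c (u w) = c w) (n : ℕ) (w : SG L) : c ((u ^ n) w) = c w := by
  induction n generalizing w with
  | zero => rfl
  | succ n ih =>
    rw [pow_succ, MulAut.mul_apply, ih, h]

/-- Products of commutators in the mapping class group lift, after taking powers, to products of
commutators in `AutPlus L` with an inner correction term which is trivial modulo `p`. -/
theorem pow_lift (L : List ι) (p : ℕ) (x : AutPlus L)
    (hx : ∀ (c : SG L →* Multiplicative (ZMod p)) (w : SG L), c ((x ^ p).1 w) = c w)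
    (n k : ℕ) (h : IsProdComm k ((QuotientGroup.mk x : Mod L) ^ n)) (j : ℕ) :
    ∃ (V : AutPlus L) (γ : SG L), IsProdComm (p * p * k * j) V ∧
      V.1 = (x ^ (n * p * p * j)).1 * MulAut.conj γ ∧
      ∀ c : SG L →* Multiplicative (ZMod p), c γ = 1 := by
  have h' : IsProdComm k (QuotientGroup.mk (x ^ n) : Mod L) := h
  obtain ⟨N, hN, hV0⟩ := ipc_lift (Inn L) h'
  obtain ⟨γ0, hγ0⟩ := hN
  have hγ0' : MulAut.conj γ0 = N.1 := hγ0
  obtain ⟨γ1, h1, h1c⟩ := m1_pow L p (x.1 ^ n) γ0 p
  obtain ⟨γ2, h2, h2c⟩ := m1_pow L p ((x.1 ^ n) ^ p) γ1 (p * j)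
  refine ⟨((x ^ n * N) ^ p) ^ (p * j), γ2, ?_, ?_, ?_⟩
  · have := ipc_pow (ipc_pow hV0 p) (p * j)
    have e : p * j * (p * k) = p * p * k * j := by ring
    rwa [e] at this
  · show (((x.1 ^ n * N.1) ^ p) ^ (p * j)) = x.1 ^ (n * p * p * j) * MulAut.conj γ2
    rw [← hγ0', h1, h2, ← pow_mul, ← pow_mul]
    congr 2
    ring
  · intro c
    have hc : ∀ w, c (((x.1 ^ n) ^ p) w) = c w := by
      intro w
      have e : (x.1 ^ n) ^ p = (x.1 ^ p) ^ n := by
        rw [← pow_mul, ← pow_mul, mul_comm]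
      rw [e]
      exact m1_inv_pow L p (x.1 ^ p) c (hx c) n w
    rw [h2c c hc, pow_mul]
    have e1 : c γ1 ^ p = 1 := by
      apply Multiplicative.toAdd.injective
      rw [toAdd_pow, toAdd_one, nsmul_eq_mul, CharP.cast_eq_zero, zero_mul]
    rw [e1, one_pow]

/-- The nontrivial homomorphisms to `ℤ/p`. -/
abbrev Hc (p : ℕ) (L : List ι) : Type := {c : SG L →* Multiplicative (ZMod p) // c ≠ 1}

instance actHc (p : ℕ) (L : List ι) : MulAction (AutPlus L) (Hc p L) where
  smul α c := ⟨c.1.comp (α⁻¹ : AutPlus L).1.toMonoidHom, by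
    intro h
    apply c.2
    refine MonoidHom.ext fun w => ?_
    have h1 := DFunLike.congr_fun h (α.1 w)
    have h2 : c.1 ((α⁻¹ : AutPlus L).1 (α.1 w)) = 1 := h1
    have h3 : (α⁻¹ : AutPlus L).1 (α.1 w) = w := by
      show α.1⁻¹ (α.1 w) = w
      rw [MulAut.inv_apply_self]
    rw [h3] at h2
    rw [h2]
    rfl⟩
  one_smul c := by
    apply Subtype.ext
    refine MonoidHom.ext fun w => ?_
    rfl
  mul_smul α β c := by
    apply Subtype.ext
    refine MonoidHom.ext fun w => ?_
    rfl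

theorem smul_apply (p : ℕ) (L : List ι) (α : AutPlus L) (c : Hc p L) (w : SG L) :
    (α • c).1 w = c.1 ((α⁻¹ : AutPlus L).1 w) := rfl

noncomputable instance (p : ℕ) (L : List ι) : DecidableEq (Hc p L) := Classical.decEq _

/-- The homomorphisms to `ℤ/p` are given by their values on the generators. -/
noncomputable def m2_equiv (p : ℕ) (L : List ι) :
    (SG L →* Multiplicative (ZMod p)) ≃ (ι × Bool → Multiplicative (ZMod p)) where
  toFun c x := c (proj L (FreeGroup.of x))
  invFun f := PresentedGroup.toGroup (f := f) (by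
    intro r hr
    rw [Set.mem_singleton_iff] at hr
    rw [hr, relator, map_list_prod, List.map_map]
    apply List.prod_eq_one
    intro x hx
    obtain ⟨i, -, rfl⟩ := List.mem_map.1 hx
    simp only [Function.comp_apply, map_mul, map_inv]
    rw [mul_comm (FreeGroup.lift f (fa i)) (FreeGroup.lift f (fb i)), mul_inv_cancel_right,
      mul_inv_cancel])
  left_inv c := by
    apply PresentedGroup.ext
    intro x
    rw [PresentedGroup.toGroup.of]
    rfl
  right_inv f := by
    funext x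
    exact PresentedGroup.toGroup.of _

theorem m2_equiv_one (p : ℕ) (L : List ι) : m2_equiv p L 1 = 1 := rfl

theorem finite_Hc (p : ℕ) [NeZero p] [Finite ι] (L : List ι) : Finite (Hc p L) := by
  have : Finite (SG L →* Multiplicative (ZMod p)) := Finite.of_equiv _ (m2_equiv p L).symm
  infer_instance

noncomputable instance (p : ℕ) [NeZero p] [Finite ι] (L : List ι) : Fintype (Hc p L) :=
  have := finite_Hc p L
  Fintype.ofFinite _

/-- Counting homomorphisms through their values on the generators. -/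
theorem m2_count (p : ℕ) [NeZero p] [Finite ι] (L : List ι)
    (Q : (ι × Bool → Multiplicative (ZMod p)) → Prop)
    [DecidablePred fun c : Hc p L => Q (m2_equiv p L c.1)] :
    (Finset.univ.filter fun c : Hc p L => Q (m2_equiv p L c.1)).card =
      Nat.card {f : ι × Bool → Multiplicative (ZMod p) // f ≠ 1 ∧ Q f} := by
  rw [← Fintype.card_subtype, ← Nat.card_eq_fintype_card]
  refine Nat.card_congr ((Equiv.subtypeSubtypeEquivSubtypeInter (fun c => c ≠ 1)
    (fun c => Q (m2_equiv p L c))).trans ((m2_equiv p L).subtypeEquiv fun c => ?_))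
  rw [Ne, Ne, ← m2_equiv_one p L, (m2_equiv p L).injective.eq_iff]

theorem m2_card_fun (p : ℕ) [NeZero p] [Fintype ι] :
    Nat.card (ι × Bool → Multiplicative (ZMod p)) = p ^ (2 * Fintype.card ι) := by
  rw [Nat.card_fun, Nat.card_prod, Nat.card_eq_fintype_card (α := ι),
    Nat.card_eq_fintype_card (α := Bool), Fintype.card_bool, mul_comm]
  congr 1
  exact Nat.card_zmod p

theorem m2_card_one (p : ℕ) [NeZero p] [Fintype ι] (x : ι × Bool) :
    Nat.card {f : ι × Bool → Multiplicative (ZMod p) // f x = 1} =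
      p ^ (2 * Fintype.card ι - 1) := by
  classical
  have e : {f : ι × Bool → Multiplicative (ZMod p) // f x = 1} ≃
      ({y // y ≠ x} → Multiplicative (ZMod p)) :=
    { toFun := fun f y => f.1 y.1
      invFun := fun h => ⟨fun y => if hy : y ≠ x then h ⟨y, hy⟩ else 1, by simp⟩
      left_inv := by
        rintro ⟨f, hf⟩
        apply Subtype.ext
        funext y
        by_cases hy : y = x
        · subst hy; simp [hf]
        · simp [hy]
      right_inv := by
        intro h
        funext y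
        simp [y.2] }
  rw [Nat.card_congr e, Nat.card_fun, Nat.card_eq_fintype_card (α := {y // y ≠ x})]
  have h1 : Fintype.card {y // y ≠ x} = 2 * Fintype.card ι - 1 := by
    rw [Fintype.card_subtype_compl, Fintype.card_prod, Fintype.card_bool, mul_comm,
      Fintype.card_subtype_eq]
  rw [h1]
  congr 1
  exact Nat.card_zmod p

theorem card_Hc (p : ℕ) [Fact p.Prime] [Fintype ι] (L : List ι) :
    Fintype.card (Hc p L) = p ^ (2 * Fintype.card ι) - 1 := by
  classical
  have h := m2_count p L fun _ => True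
  rw [Finset.filter_true, Finset.card_univ] at h
  rw [h, ← m2_card_fun (ι := ι) p]
  have h1 : Nat.card {f : ι × Bool → Multiplicative (ZMod p) // f ≠ 1 ∧ True} =
      Nat.card {f : ι × Bool → Multiplicative (ZMod p) // f ≠ 1} := by
    simp
  rw [h1, Nat.card_eq_fintype_card, Nat.card_eq_fintype_card, Fintype.card_subtype_compl,
    Fintype.card_subtype_eq]

theorem card_typeA (p : ℕ) [Fact p.Prime] [Fintype ι] (L : List ι) (i : ι) :
    (Finset.univ.filter fun c : Hc p L => c.1 (ga L i) ≠ 1).card =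
      p ^ (2 * Fintype.card ι) - p ^ (2 * Fintype.card ι - 1) := by
  classical
  have h := m2_count p L fun f => f (i, false) ≠ 1
  have h0 : (Finset.univ.filter fun c : Hc p L => c.1 (ga L i) ≠ 1).card =
      (Finset.univ.filter fun c : Hc p L => (m2_equiv p L c.1) (i, false) ≠ 1).card := rfl
  rw [h0, h]
  have h1 : Nat.card {f : ι × Bool → Multiplicative (ZMod p) // f ≠ 1 ∧ f (i, false) ≠ 1} =
      Nat.card {f : ι × Bool → Multiplicative (ZMod p) // ¬ f (i, false) = 1} := by
    refine Nat.card_congr (Equiv.subtypeEquivRight fun f => ?_)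
    constructor
    · exact fun h => h.2
    · intro h
      refine ⟨fun h2 => h ?_, h⟩
      rw [h2]; rfl
  rw [h1, Nat.card_eq_fintype_card, Fintype.card_subtype_compl, ← Nat.card_eq_fintype_card,
    ← Nat.card_eq_fintype_card, m2_card_fun, m2_card_one]

theorem card_typeB (p : ℕ) [Fact p.Prime] [Fintype ι] (L : List ι) (i : ι) :
    (Finset.univ.filter fun c : Hc p L => c.1 (ga L i) = 1).card =
      p ^ (2 * Fintype.card ι - 1) - 1 := by
  classical
  have h := m2_count p L fun f => f (i, false) = 1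
  have h0 : (Finset.univ.filter fun c : Hc p L => c.1 (ga L i) = 1).card =
      (Finset.univ.filter fun c : Hc p L => (m2_equiv p L c.1) (i, false) = 1).card := rfl
  rw [h0, h, ← m2_card_one p (i, false)]
  have h1 : Nat.card {f : ι × Bool → Multiplicative (ZMod p) // f ≠ 1 ∧ f (i, false) = 1} =
      Nat.card {f : {f : ι × Bool → Multiplicative (ZMod p) // f (i, false) = 1} //
        ¬ f = ⟨1, rfl⟩} := by
    refine Nat.card_congr ?_
    refine Equiv.trans (Equiv.subtypeEquivRight fun f => ?_)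
      (Equiv.subtypeSubtypeEquivSubtypeInter (fun f => f (i, false) = 1)
        (fun f => ¬ f = 1)).symm |>.trans (Equiv.subtypeEquivRight fun f => ?_)
    · exact and_comm
    · rw [Subtype.ext_iff]
  rw [h1, Nat.card_eq_fintype_card, Nat.card_eq_fintype_card, Fintype.card_subtype_compl,
    Fintype.card_subtype_eq]

end lift

section transfer

variable {κ : Type} [DecidableEq κ] (p : ℕ) [Fact p.Prime] (L0 : List κ)

open Classical in
/-- The choice of the automorphism `f` for a covering `c`. -/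
theorem exists_fc (hn : L0.Nodup) (hc : ∀ k, k ∈ L0) (c : Hc p (BL L0)) :
    ∃ f : AutPlus (BL L0), (∀ w, c.1 (f.1 w) = 1 ↔ c0 p L0 w = 1) ∧
      ∀ (m : ℕ) (g : St0 p L0), g.1 = f⁻¹ * twist (BL L0) none ^ (p * m) * f →
        CP (tw (BL (CL p L0)) none) (if c.1 (ga (BL L0) none) = 1 then p else 1)
          (if c.1 (ga (BL L0) none) = 1 then p * (p * m) else m) (rM p L0 g) := by
  set c' : FreeGroup (Option κ × Bool) →* Multiplicative (ZMod p) :=
    c.1.comp (proj (BL L0)) with hc'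
  have hc1 : c' ≠ 1 := by
    intro h
    apply c.2
    refine MonoidHom.ext fun w => ?_
    obtain ⟨w, rfl⟩ := PresentedGroup.mk_surjective _ w
    exact DFunLike.congr_fun h w
  obtain ⟨e, he, hew, hcase⟩ := types L0 hn hc c' hc1
  have hconj : ∀ t : MulAut (FreeGroup (Option κ × Bool)), ∀ ht : t ∈ StR (BL L0),
      e⁻¹ * twE none * e = t →
      (toAut (BL L0) ⟨e, he⟩)⁻¹ * twist (BL L0) none * toAut (BL L0) ⟨e, he⟩ =
        toAut (BL L0) ⟨t, ht⟩ := by
    intro t ht h
    rw [← toAut_twE, ← map_inv, ← map_mul, ← map_mul]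
    congr 1
    apply Subtype.ext
    exact h
  have hpow : ∀ (n : ℕ) (f t : AutPlus (BL L0)),
      f⁻¹ * t ^ n * f = (f⁻¹ * t * f) ^ n := by
    intro n f t
    have := (conj_pow (i := n) (a := f⁻¹) (b := t))
    rw [inv_inv] at this
    exact this.symm
  refine ⟨toAut (BL L0) ⟨e, he⟩, ?_, ?_⟩
  · intro w
    obtain ⟨w, rfl⟩ := PresentedGroup.mk_surjective _ w
    have h1 := toAut_proj (BL L0) ⟨e, he⟩ w
    have h2 : c.1 ((toAut (BL L0) ⟨e, he⟩).1 (proj (BL L0) w)) = c' (e w) := by
      rw [h1]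
      rfl
    rw [show (PresentedGroup.mk ({relator (BL L0)} : Set (FreeGroup (Option κ × Bool)))) w =
      proj (BL L0) w from rfl, h2, c0_proj]
    exact hew w
  · intro m g hg
    rw [hpow] at hg
    rcases hcase with ⟨h1, h2⟩ | ⟨h1, i, h2⟩
    · have h3 : ¬ c.1 (ga (BL L0) none) = 1 := h1
      rw [if_neg h3, if_neg h3]
      apply rM_A p L0 m g
      rw [hg, hconj _ (twE'_mem none _) h2]
    · have h3 : c.1 (ga (BL L0) none) = 1 := h1
      rw [if_pos h3, if_pos h3]
      have h4 := hconj _ (twE_mem i _) h2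
      rw [toAut_twE] at h4
      rw [h4] at hg
      cases i with
      | none => exact rM_B p L0 (p * m) g hg
      | some i => exact rM_C p L0 hn i (hc i) (p * m) g hg

/-- `t ^ p` acts trivially on the homomorphisms to `ℤ/p`. -/
theorem twist_pow_p {ι : Type} [DecidableEq ι] (L : List ι) (i : ι)
    (c : SG L →* Multiplicative (ZMod p)) (w : SG L) : c (((twist L i) ^ p).1 w) = c w := by
  have ha : ∀ (m : ℕ) (j : ι), ((twist L i) ^ m).1 (ga L j) = ga L j := by
    intro m j
    induction m with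
    | zero => rfl
    | succ m ih =>
      rw [pow_succ]
      show ((twist L i) ^ m).1 ((twist L i).1 (ga L j)) = ga L j
      rw [show (twist L i).1 (ga L j) = ga L j from twAut_a L i j, ih]
  have hb : ∀ (m : ℕ), ((twist L i) ^ m).1 (gb L i) = gb L i * ga L i ^ m := by
    intro m
    induction m with
    | zero =>
      rw [pow_zero, pow_zero, mul_one]
      rfl
    | succ m ih =>
      rw [pow_succ]
      show ((twist L i) ^ m).1 ((twist L i).1 (gb L i)) = _
      rw [show (twist L i).1 (gb L i) = gb L i * ga L i from twAut_b L i, map_mul, ih, ha,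
        pow_succ, mul_assoc]
  have hb' : ∀ (m : ℕ) (j : ι), j ≠ i → ((twist L i) ^ m).1 (gb L j) = gb L j := by
    intro m j hj
    induction m with
    | zero => rfl
    | succ m ih =>
      rw [pow_succ]
      show ((twist L i) ^ m).1 ((twist L i).1 (gb L j)) = gb L j
      rw [show (twist L i).1 (gb L j) = gb L j from twAut_b_ne L i j hj, ih]
  have hexp : ∀ x : Multiplicative (ZMod p), x ^ p = 1 := by
    intro x
    apply Multiplicative.toAdd.injective
    rw [toAdd_pow, toAdd_one, nsmul_eq_mul, CharP.cast_eq_zero, zero_mul]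
  have key : c.comp ((twist L i) ^ p).1.toMonoidHom = c := by
    apply PresentedGroup.ext
    rintro ⟨j, s⟩
    cases s
    · show c (((twist L i) ^ p).1 (ga L j)) = c (ga L j)
      rw [ha]
    · show c (((twist L i) ^ p).1 (gb L j)) = c (gb L j)
      by_cases h : j = i
      · subst h
        rw [hb, map_mul, map_pow, hexp, mul_one]
      · rw [hb' p j h]
  exact DFunLike.congr_fun key w

theorem m4_pow (L : List (Option κ)) (m : ℕ)
    (c : SG L →* Multiplicative (ZMod p)) (w : SG L) :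
    c (((twist L none) ^ (p * m)).1 w) = c w := by
  induction m generalizing w with
  | zero =>
    rw [Nat.mul_zero, pow_zero]
    rfl
  | succ m ih =>
    rw [Nat.mul_succ, pow_add]
    show c (((twist L none) ^ (p * m)).1 (((twist L none) ^ p).1 w)) = c w
    rw [ih, twist_pow_p]

open Classical in
/-- The transfer argument. -/
theorem transfer [Fintype κ] (hn : L0.Nodup) (hc : ∀ k, k ∈ L0) (n k : ℕ)
    (h : IsProdComm k (tw (BL L0) none ^ n)) (j : ℕ) :
    IsProdComm (p * (Fintype.card (Hc p (BL L0)) * p) * k * j +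
        ∑ c : Hc p (BL L0), if c.1 (ga (BL L0) none) = 1 then p else 1)
      (tw (BL (CL p L0)) none ^
        (p * (∑ c : Hc p (BL L0), if c.1 (ga (BL L0) none) = 1 then p * p else 1) * n * j)) := by
  obtain ⟨V, γ, hV, hVγ, hγ⟩ := pow_lift (BL L0) p (twist (BL L0) none)
    (fun c w => twist_pow_p p (BL L0) none c w) n k h j
  have hmm : n * p * p * j = p * (n * p * j) := by ring
  rw [hmm] at hVγ
  set m : ℕ := n * p * j with hm
  let f : Hc p (BL L0) → AutPlus (BL L0) := fun c => (exists_fc p L0 hn hc c).choose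
  have hf1 : ∀ (c : Hc p (BL L0)) (w : SG (BL L0)), c.1 ((f c).1 w) = 1 ↔ c0 p L0 w = 1 :=
    fun c => (exists_fc p L0 hn hc c).choose_spec.1
  have hf2 : ∀ (c : Hc p (BL L0)) (m : ℕ) (g : St0 p L0),
      g.1 = (f c)⁻¹ * twist (BL L0) none ^ (p * m) * f c →
        CP (tw (BL (CL p L0)) none) (if c.1 (ga (BL L0) none) = 1 then p else 1)
          (if c.1 (ga (BL L0) none) = 1 then p * (p * m) else m) (rM p L0 g) :=
    fun c => (exists_fc p L0 hn hc c).choose_spec.2
  -- the inverse of `f`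
  have hinv : ∀ (c : Hc p (BL L0)) (y : SG (BL L0)), c0 p L0 ((f c)⁻¹.1 y) = 1 ↔ c.1 y = 1 := by
    intro c y
    have h1 := hf1 c ((f c)⁻¹.1 y)
    have h2 : (f c).1 ((f c)⁻¹.1 y) = y := by
      show (f c).1 ((f c).1⁻¹ y) = y
      rw [MulAut.apply_inv_self]
    rw [h2] at h1
    exact h1.symm
  have hst : ∀ (α : AutPlus (BL L0)) (c : Hc p (BL L0)), (f (α • c))⁻¹ * α * f c ∈ St0 p L0 := by
    intro α c w
    show c0 p L0 ((f (α • c))⁻¹.1 (α.1 ((f c).1 w))) = 1 ↔ _
    rw [hinv, smul_apply]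
    have h2 : (α⁻¹ : AutPlus (BL L0)).1 (α.1 ((f c).1 w)) = (f c).1 w := by
      show α.1⁻¹ (α.1 _) = _
      rw [MulAut.inv_apply_self]
    rw [h2]
    exact hf1 c w
  have hVc : ∀ (c : Hc p (BL L0)) (w : SG (BL L0)), c.1 (V.1 w) = c.1 w := by
    intro c w
    rw [hVγ]
    show c.1 (((twist (BL L0) none) ^ (p * m)).1 (MulAut.conj γ w)) = c.1 w
    rw [m4_pow, MulAut.conj_apply, map_mul, map_mul, map_inv, hγ, one_mul, inv_one, mul_one]
  have hVj : ∀ c : Hc p (BL L0), V • c = c := by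
    intro c
    apply Subtype.ext
    refine MonoidHom.ext fun w => ?_
    rw [smul_apply, ← hVc c]
    show c.1 (V.1 (V.1⁻¹ w)) = _
    rw [MulAut.apply_inv_self]
  have hm' : ∀ c, (f c)⁻¹ * V * f c ∈ St0 p L0 := by
    intro c
    have h1 := hst V c
    rwa [hVj c] at h1
  have hmono := monomial (St0 p L0) (rM p L0) f hst _ V hV hVj hm'
  have hCP : ∀ c ∈ (Finset.univ : Finset (Hc p (BL L0))).toList,
      CP (tw (BL (CL p L0)) none) (if c.1 (ga (BL L0) none) = 1 then p else 1)
        (if c.1 (ga (BL L0) none) = 1 then p * (p * m) else m)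
        (rM p L0 ⟨(f c)⁻¹ * V * f c, hm' c⟩) := by
    intro c _
    -- the inner part
    set δ : SG (BL L0) := (f c)⁻¹.1 γ with hδ
    have hδ1 : c0 p L0 δ = 1 := by
      rw [hδ, hinv]
      exact hγ c.1
    have hin : (⟨MulAut.conj δ, conj_mem _ δ⟩ : AutPlus (BL L0)) ∈ St0 p L0 := by
      intro w
      show c0 p L0 (MulAut.conj δ w) = 1 ↔ _
      rw [MulAut.conj_apply, map_mul, map_mul, map_inv, mul_inv_cancel_comm]
    have hdec : (f c)⁻¹ * V * f c = ((f c)⁻¹ * twist (BL L0) none ^ (p * m) * f c) *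
        ⟨MulAut.conj δ, conj_mem _ δ⟩ := by
      apply Subtype.ext
      apply MulEquiv.ext
      intro w
      show (f c).1⁻¹ (V.1 ((f c).1 w)) = (f c).1⁻¹ (((twist (BL L0) none) ^ (p * m)).1
        ((f c).1 (MulAut.conj δ w)))
      rw [hVγ]
      show (f c).1⁻¹ (((twist (BL L0) none) ^ (p * m)).1 (MulAut.conj γ ((f c).1 w))) = _
      have h1 : (f c).1 δ = γ := by
        show (f c).1 ((f c).1⁻¹ γ) = γ
        rw [MulAut.apply_inv_self]
      congr 2
      rw [MulAut.conj_apply, MulAut.conj_apply, map_mul, map_mul, map_inv, h1]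
    have hg1 : (f c)⁻¹ * twist (BL L0) none ^ (p * m) * f c ∈ St0 p L0 := by
      have h1 := (St0 p L0).mul_mem (hm' c) ((St0 p L0).inv_mem hin)
      rw [hdec, mul_inv_cancel_right] at h1
      exact h1
    have hprod : (⟨(f c)⁻¹ * V * f c, hm' c⟩ : St0 p L0) =
        ⟨(f c)⁻¹ * twist (BL L0) none ^ (p * m) * f c, hg1⟩ *
          ⟨⟨MulAut.conj δ, conj_mem _ δ⟩, hin⟩ := by
      apply Subtype.ext
      exact hdec
    rw [hprod, map_mul, rM_inner p L0 δ hδ1 ⟨⟨MulAut.conj δ, conj_mem _ δ⟩, hin⟩ rfl, mul_one]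
    exact hf2 c m _ rfl
  have hlist := CP_list _ _ _ _ hCP
  have hfin := CP_ipc hlist hmono
  rw [Finset.sum_map_toList, Finset.sum_map_toList] at hfin
  have e1 : Fintype.card (Hc p (BL L0)) * (p * p * k * j) +
      ∑ c : Hc p (BL L0), (if c.1 (ga (BL L0) none) = 1 then p else 1) =
      p * (Fintype.card (Hc p (BL L0)) * p) * k * j +
        ∑ c : Hc p (BL L0), if c.1 (ga (BL L0) none) = 1 then p else 1 := by ring
  have e2 : ∑ c : Hc p (BL L0), (if c.1 (ga (BL L0) none) = 1 then p * (p * m) else m) =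
      p * (∑ c : Hc p (BL L0), if c.1 (ga (BL L0) none) = 1 then p * p else 1) * n * j := by
    have e3 : p * (∑ c : Hc p (BL L0), if c.1 (ga (BL L0) none) = 1 then p * p else 1) * n * j =
        (∑ c : Hc p (BL L0), if c.1 (ga (BL L0) none) = 1 then p * p else 1) * m := by
      rw [hm]; ring
    rw [e3, Finset.sum_mul]
    apply Finset.sum_congr rfl
    intro c _
    split_ifs
    · ring
    · ring
  rw [e1, e2] at hfin
  exact hfin

/-- The covering inequality. -/
theorem main_cover [Fintype κ] (hn : L0.Nodup) (hc : ∀ k, k ∈ L0) (g : ℕ)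
    (hg : g = L0.length + 1) :
    ((p ^ (2 * g) - p ^ (2 * g - 1) + p ^ 2 * (p ^ (2 * g - 1) - 1) : ℕ) : ℝ≥0∞) *
        scl (tw (BL (CL p L0)) none) ≤
      (((p ^ (2 * g) - 1) * p : ℕ) : ℝ≥0∞) * scl (tw (BL L0) none) := by
  classical
  have hp : p.Prime := Fact.out
  have hp2 : 2 ≤ p := hp.two_le
  have hcard : Fintype.card (Option κ) = g := by
    rw [Fintype.card_option, hg]
    congr 1
    have h1 : L0.toFinset = Finset.univ := by
      ext k
      simp [hc k]
    rw [← Finset.card_univ, ← h1, List.toFinset_card_of_nodup hn]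
  have hJ : Fintype.card (Hc p (BL L0)) = p ^ (2 * g) - 1 := by
    rw [card_Hc, hcard]
  have hA := card_typeA p (BL L0) (none : Option κ)
  have hB := card_typeB p (BL L0) (none : Option κ)
  rw [hcard] at hA hB
  have hsum : (∑ c : Hc p (BL L0), if c.1 (ga (BL L0) none) = 1 then p * p else 1) =
      p ^ (2 * g) - p ^ (2 * g - 1) + p ^ 2 * (p ^ (2 * g - 1) - 1) := by
    rw [Finset.sum_ite, Finset.sum_const, Finset.sum_const, smul_eq_mul, smul_eq_mul, mul_one,
      hA, hB, add_comm]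
    ring
  have hg1 : 1 ≤ g := by omega
  have hlt : 1 < p ^ (2 * g) := Nat.one_lt_pow (by omega) (by omega)
  have hlt2 : 1 < p ^ (2 * g - 1) := Nat.one_lt_pow (by omega) (by omega)
  have hα : 0 < p ^ (2 * g) - p ^ (2 * g - 1) + p ^ 2 * (p ^ (2 * g - 1) - 1) := by
    have : 0 < p ^ 2 * (p ^ (2 * g - 1) - 1) := Nat.mul_pos (by positivity) (by omega)
    omega
  have hβ : 0 < (p ^ (2 * g) - 1) * p := Nat.mul_pos (by omega) (by omega)
  refine scl_ineq (tw (BL L0) none) (tw (BL (CL p L0)) none) _ _ hα hβ ?_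
  intro n k hn1 hk
  refine ⟨p, ∑ c : Hc p (BL L0), if c.1 (ga (BL L0) none) = 1 then p else 1, by omega, ?_⟩
  intro j hj
  have h := transfer p L0 hn hc n k hk j
  rw [hsum, hJ] at h
  exact h

end transfer

section final

theorem m6_equiv {α : Type} [DecidableEq α] (l : List α) (hn : l.Nodup) (hc : ∀ x, x ∈ l)
    (g : ℕ) (hg : l.length = g) : ∃ e : α ≃ Fin g, l.map e = List.finRange g := by
  subst hg
  refine ⟨(List.Nodup.getEquivOfForallMemList l hn hc).symm, ?_⟩
  apply List.ext_getElem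
  · simp
  · intro n h1 h2
    rw [List.getElem_map, List.getElem_finRange, Equiv.symm_apply_eq]
    simp [List.Nodup.getEquivOfForallMemList]

/-- The value `φ(g, 0)` can be computed with any list of handles. -/
theorem phi0_eq {κ : Type} [DecidableEq κ] (L0 : List κ) (hn : L0.Nodup) (hc : ∀ k, k ∈ L0)
    (g : ℕ) (hg : g = L0.length + 1) (i : Fin g) : phi0 g i = scl (tw (BL L0) none) := by
  have hn' : (BL L0).Nodup := by
    unfold BL
    rw [List.nodup_cons]
    refine ⟨by simp, hn.map (Option.some_injective κ)⟩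
  have hc' : ∀ x, x ∈ BL L0 := by
    intro x
    unfold BL
    cases x with
    | none => simp
    | some k => simp [hc k]
  obtain ⟨e, he⟩ := m6_equiv (BL L0) hn' hc' g (by simp [BL, hg])
  have hE := exists_reindex e (BL L0)
  rw [he] at hE
  obtain ⟨E, hE⟩ := hE
  have h1 : tw (List.finRange g) i = E (tw (BL L0) (e.symm i)) := by
    rw [hE, Equiv.apply_symm_apply]
  unfold phi0
  rw [h1, scl_equiv]
  rcases e.symm i with _ | j
  · rfl
  · obtain ⟨c, hcc⟩ := tw_some_conj L0 hn j (hc j)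
    rw [hcc, scl_conj]

/-- The covering inequality for `p`-fold cyclic coverings. -/
theorem prime_step (g : ℕ) (hg : 2 ≤ g) (p : ℕ) (hp : p.Prime) (i : Fin g)
    (j : Fin (p * (g - 1) + 1)) :
    ENNReal.ofReal ((p : ℝ) ^ (2 * g) + (p : ℝ) ^ (2 * g - 1) - (p : ℝ) ^ (2 * g - 2) - p) *
        phi0 (p * (g - 1) + 1) j ≤
      ENNReal.ofReal ((p : ℝ) ^ (2 * g) - 1) * phi0 g i := by
  have : Fact p.Prime := ⟨hp⟩
  have hn : (List.finRange (g - 1)).Nodup := List.nodup_finRange _
  have hc : ∀ k, k ∈ List.finRange (g - 1) := List.mem_finRange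
  have hlen : g = (List.finRange (g - 1)).length + 1 := by
    rw [List.length_finRange]; omega
  have h1 := main_cover p (List.finRange (g - 1)) hn hc g hlen
  have h2 := phi0_eq (List.finRange (g - 1)) hn hc g hlen i
  have h3 := phi0_eq (CL p (List.finRange (g - 1))) (CL_nodup p _ hn) (CL_mem p _ hc)
    (p * (g - 1) + 1) (by rw [CL_length, List.length_finRange]) j
  rw [← h2, ← h3] at h1
  obtain ⟨n, rfl⟩ : ∃ n, g = n + 1 := ⟨g - 1, by omega⟩
  have hp1 : (1 : ℝ) ≤ p := by exact_mod_cast hp.one_le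
  have e1 : 2 * (n + 1) - 1 = 2 * n + 1 := by omega
  have e2 : 2 * (n + 1) - 2 = 2 * n := by omega
  have e3 : 2 * (n + 1) = 2 * n + 2 := by ring
  have hx1 : (1 : ℝ) ≤ (p : ℝ) ^ (2 * n) := one_le_pow₀ hp1
  have c1 : (p : ℝ≥0∞) * ENNReal.ofReal ((p : ℝ) ^ (2 * (n + 1)) + (p : ℝ) ^ (2 * (n + 1) - 1) -
      (p : ℝ) ^ (2 * (n + 1) - 2) - p) =
      ((p ^ (2 * (n + 1)) - p ^ (2 * (n + 1) - 1) + p ^ 2 * (p ^ (2 * (n + 1) - 1) - 1) : ℕ) :
        ℝ≥0∞) := by
    rw [← ENNReal.ofReal_natCast p, ← ENNReal.ofReal_mul (by positivity),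
      ← ENNReal.ofReal_natCast (_ + _)]
    congr 1
    have h4 : p ^ (2 * (n + 1) - 1) ≤ p ^ (2 * (n + 1)) := Nat.pow_le_pow_right hp.pos (by omega)
    have h5 : 1 ≤ p ^ (2 * (n + 1) - 1) := Nat.one_le_pow _ _ hp.pos
    push_cast [Nat.cast_sub h4, Nat.cast_sub h5]
    rw [e1, e2, e3]
    ring
  have c2 : (p : ℝ≥0∞) * ENNReal.ofReal ((p : ℝ) ^ (2 * (n + 1)) - 1) =
      (((p ^ (2 * (n + 1)) - 1) * p : ℕ) : ℝ≥0∞) := by
    rw [← ENNReal.ofReal_natCast p, ← ENNReal.ofReal_mul (by positivity),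
      ← ENNReal.ofReal_natCast (_ * _)]
    congr 1
    have h5 : 1 ≤ p ^ (2 * (n + 1)) := Nat.one_le_pow _ _ hp.pos
    push_cast [Nat.cast_sub h5]
    ring
  rw [← c1, ← c2, mul_assoc, mul_assoc] at h1
  exact (ENNReal.mul_le_mul_iff_right (by exact_mod_cast hp.ne_zero) (ENNReal.natCast_ne_top p)).1 h1

/-- The numerical estimate `E ≥ 1 + 2 / (5 p)`. -/
theorem prime_step' (g : ℕ) (hg : 2 ≤ g) (p : ℕ) (hp : p.Prime) (i : Fin g)
    (j : Fin (p * (g - 1) + 1)) :
    ENNReal.ofReal (1 + 2 / (5 * (p : ℝ))) * phi0 (p * (g - 1) + 1) j ≤ phi0 g i := by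
  have h1 := prime_step g hg p hp i j
  have hp2 : (2 : ℝ) ≤ p := by exact_mod_cast hp.two_le
  obtain ⟨n, rfl⟩ : ∃ n, g = n + 2 := ⟨g - 2, by omega⟩
  set E1 : ℝ := (p : ℝ) ^ (2 * (n + 2)) + (p : ℝ) ^ (2 * (n + 2) - 1) -
    (p : ℝ) ^ (2 * (n + 2) - 2) - p with hE1
  set E2 : ℝ := (p : ℝ) ^ (2 * (n + 2)) - 1 with hE2
  have e1 : 2 * (n + 2) - 1 = 2 * n + 3 := by omega
  have e2 : 2 * (n + 2) - 2 = 2 * n + 2 := by omega
  have e3 : 2 * (n + 2) = 2 * n + 4 := by ring
  have hy : (1 : ℝ) ≤ (p : ℝ) ^ (2 * n) := one_le_pow₀ (by linarith)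
  set y : ℝ := (p : ℝ) ^ (2 * n) with hydef
  have hE1' : E1 = y * p ^ 4 + y * p ^ 3 - y * p ^ 2 - p := by
    rw [hE1, e1, e2, e3, pow_add, pow_add, pow_add]
  have hE2' : E2 = y * p ^ 4 - 1 := by
    rw [hE2, e3, pow_add]
  have hE2pos : 0 < E2 := by
    rw [hE2']
    have : (16 : ℝ) ≤ (p : ℝ) ^ 4 := by
      calc (16 : ℝ) = 2 ^ 4 := by norm_num
        _ ≤ (p : ℝ) ^ 4 := pow_le_pow_left₀ (by norm_num) hp2 4
    nlinarith
  have hineq : E2 * (1 + 2 / (5 * (p : ℝ))) ≤ E1 := by
    have hp0 : (0 : ℝ) < 5 * p := by linarith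
    rw [← sub_nonneg]
    have key : 5 * (p : ℝ) * (E1 - E2 * (1 + 2 / (5 * (p : ℝ)))) =
        (y - 1) * p ^ 2 * (3 * p ^ 2 - 5 * p) + (p - 2) * ((3 * p + 1) * (p ^ 2 - 1)) := by
      rw [hE1', hE2']
      field_simp
      ring
    have hk : 0 ≤ 5 * (p : ℝ) * (E1 - E2 * (1 + 2 / (5 * (p : ℝ)))) := by
      rw [key]
      have h3 : 0 ≤ 3 * (p : ℝ) ^ 2 - 5 * p := by nlinarith
      have h4 : 0 ≤ (p : ℝ) ^ 2 - 1 := by nlinarith
      have h5 : 0 ≤ y - 1 := by linarith
      have h6 : 0 ≤ (p : ℝ) - 2 := by linarith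
      positivity
    by_contra hneg
    push Not at hneg
    have := mul_neg_of_pos_of_neg hp0 hneg
    linarith
  have hpos : (0 : ℝ) ≤ 1 + 2 / (5 * (p : ℝ)) := by positivity
  have h2 : ENNReal.ofReal E2 * (ENNReal.ofReal (1 + 2 / (5 * (p : ℝ))) *
      phi0 (p * (n + 2 - 1) + 1) j) ≤ ENNReal.ofReal E2 * phi0 (n + 2) i := by
    refine le_trans ?_ h1
    rw [← mul_assoc, ← ENNReal.ofReal_mul hE2pos.le]
    exact mul_le_mul_left (ENNReal.ofReal_le_ofReal hineq) _
  exact (ENNReal.mul_le_mul_iff_right (by simpa using hE2pos) ENNReal.ofReal_ne_top).1 h2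

theorem m8_cast {g1 g2 : ℕ} (h : g1 = g2) (i1 : Fin g1) (i2 : Fin g2) :
    phi0 g1 i1 = phi0 g2 i2 := by
  subst h
  have hg : 0 < g1 := i1.pos
  have hlen : g1 = (List.finRange (g1 - 1)).length + 1 := by
    rw [List.length_finRange]; omega
  rw [phi0_eq (List.finRange (g1 - 1)) (List.nodup_finRange _) List.mem_finRange g1 hlen i1,
    phi0_eq (List.finRange (g1 - 1)) (List.nodup_finRange _) List.mem_finRange g1 hlen i2]

/-- Composite degrees. -/
theorem all_degrees (g : ℕ) (hg : 2 ≤ g) (D : ℕ) (hD : 1 ≤ D) (i : Fin g)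
    (j : Fin (D * (g - 1) + 1)) :
    ENNReal.ofReal ((D.primeFactorsList.map fun p : ℕ => 1 + 2 / (5 * (p : ℝ))).prod) *
        phi0 (D * (g - 1) + 1) j ≤ phi0 g i := by
  induction D using Nat.strong_induction_on with
  | _ D ih =>
    rcases Nat.eq_or_lt_of_le hD with h1 | h1
    · subst h1
      rw [m8_cast (g1 := 1 * (g - 1) + 1) (g2 := g) (by omega) j i]
      simp
    · obtain ⟨k, rfl⟩ : ∃ k, D = k + 2 := ⟨D - 2, by omega⟩
      set p := (k + 2).minFac with hpdef
      have hp : p.Prime := Nat.minFac_prime (by omega)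
      obtain ⟨D', hD'⟩ : p ∣ k + 2 := Nat.minFac_dvd _
      have hlist : (k + 2).primeFactorsList = p :: D'.primeFactorsList := by
        have h2 : (k + 2) / p = D' := by
          rw [hD', Nat.mul_div_cancel_left _ hp.pos]
        rw [Nat.primeFactorsList, ← hpdef, h2]
      have hD'pos : 1 ≤ D' := by
        rcases Nat.eq_zero_or_pos D' with h3 | h3
        · subst h3; omega
        · exact h3
      have hD'lt : D' < k + 2 := by
        rw [hD']
        have := hp.two_le
        nlinarith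
      have hg' : 2 ≤ D' * (g - 1) + 1 := by
        have : 1 * 1 ≤ D' * (g - 1) := Nat.mul_le_mul hD'pos (by omega)
        omega
      have e1 : p * (D' * (g - 1) + 1 - 1) + 1 = (k + 2) * (g - 1) + 1 := by
        rw [Nat.add_sub_cancel, hD', mul_assoc]
      have i' : Fin (D' * (g - 1) + 1) := ⟨0, by omega⟩
      have h4 := ih D' hD'lt hD'pos i'
      have h5 := prime_step' (D' * (g - 1) + 1) hg' p hp i' (Fin.cast e1.symm j)
      rw [m8_cast e1 (Fin.cast e1.symm j) j] at h5
      rw [hlist, List.map_cons, List.prod_cons, mul_comm (1 + 2 / (5 * (p : ℝ))),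
        ENNReal.ofReal_mul]
      · rw [mul_assoc]
        exact (mul_le_mul_right h5 _).trans h4
      · apply List.prod_nonneg
        intro a ha
        obtain ⟨q, -, rfl⟩ := List.mem_map.1 ha
        positivity

end final

end Pool.Agent.Lib.MP_6a1159_al
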